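import Pool.Agent.Q260.OE.Stm2
import Pool.Agent.Q286.BD.Fin
import Pool.Agent.Y23.Ze

set_option autoImplicit false

/-!
# Project OE, job POS: facts on the zeros
-/

namespace Pool.Agent.Q280.OE

open Complex MeasureTheory Filter Topology Set
open Pool.Agent.Q286.BD (cl mz S_sum2 S_const cl_re cl_im norm_cl_sq eqv eqv_coe summ_line)
open Pool.Agent.Q260.OE

lemma mz_pos (g : Go) : 1 ≤ mz (cl g) :=
  Pool.Agent.Y23.mu_pos (s := cl g) ⟨g.2, by rw [cl_re]; norm_num, by rw [cl_re]; norm_num⟩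

lemma harm_lb : (4.728 : ℚ) < harmonic 63 := by
  unfold harmonic
  norm_num [Finset.sum_range_succ]

lemma const_pos : 0 < 2 + Real.eulerMascheroniConstant - Real.log (4 * Real.pi) := by
  have h1 := Real.eulerMascheroniSeq_lt_eulerMascheroniConstant 63
  unfold Real.eulerMascheroniSeq at h1
  have h2 : Real.log ((63 : ℕ) + 1 : ℝ) = 6 * Real.log 2 := by
    have : ((63 : ℕ) + 1 : ℝ) = 2 ^ 6 := by norm_num
    rw [this, Real.log_pow]
    norm_num
  rw [h2] at h1
  have h3 : (4.728 : ℝ) < ((harmonic 63 : ℚ) : ℝ) := by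
    have := harm_lb
    have h : ((4.728 : ℚ) : ℝ) < ((harmonic 63 : ℚ) : ℝ) := by exact_mod_cast this
    norm_num at h ⊢
  have h4 : Real.log (4 * Real.pi) = 4 * Real.log 2 + Real.log (Real.pi / 4) := by
    have : 4 * Real.pi = 2 ^ 4 * (Real.pi / 4) := by ring
    rw [this, Real.log_mul (by positivity) (by positivity), Real.log_pow]
    norm_num
  have h5 : Real.log (Real.pi / 4) ≤ Real.pi / 4 - 1 := Real.log_le_sub_one_of_pos (by positivity)
  have h6 := Real.pi_lt_d4
  have h7 := Real.log_two_lt_d9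
  rw [h4]
  linarith

lemma sum_one (hc : S_const) (hRH : RiemannHypothesis) :
    ∑' g : Go, (mz (cl g) : ℝ) / (1 / 4 + (g : ℝ) ^ 2) = 2 + Real.eulerMascheroniConstant - Real.log (4 * Real.pi) := by
  rw [← hc hRH, ← (eqv hRH).tsum_eq]
  refine tsum_congr fun g => ?_
  rw [eqv_coe, norm_cl_sq]

lemma den_pos (g : ℝ) : 0 < 1 / 4 + g ^ 2 := by positivity

theorem t_POS (hc : S_const) (h2 : S_sum2) : S_POS := by
  refine ⟨mz_pos, fun hRH => ?_⟩
  have hs := summ_line hRH h2
  have h1 := sum_one hc hRH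
  refine ⟨?_, h1, ?_⟩
  · obtain ⟨g0⟩ : Nonempty Go := by
      by_contra hne
      rw [not_nonempty_iff] at hne
      rw [tsum_empty] at h1
      exact absurd const_pos (by rw [← h1]; exact lt_irrefl _)
    have h3 : (mz (cl g0) : ℝ) ^ 2 / (1 / 4 + (g0 : ℝ) ^ 2) ≤ BB :=
      hs.le_tsum g0 fun g _ => by
        have := den_pos (g : ℝ)
        positivity
    refine lt_of_lt_of_le ?_ h3
    have h4 : (1 : ℝ) ≤ mz (cl g0) := by exact_mod_cast mz_pos g0
    have := den_pos (g0 : ℝ)
    positivity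
  · intro h0 g
    have hm : ∀ g : Go, (1 : ℝ) ≤ mz (cl g) := fun g => by exact_mod_cast mz_pos g
    have hnn : ∀ g : Go, 0 ≤ 2 * (mz (cl g) : ℝ) * ((mz (cl g) : ℝ) - 1) / (1 / 4 + (g : ℝ) ^ 2) := fun g => by
      have h5 := hm g
      have h6 : 0 ≤ (mz (cl g) : ℝ) - 1 := by linarith
      have := den_pos (g : ℝ)
      positivity
    have hs' : Summable fun g : Go => 2 * (mz (cl g) : ℝ) * ((mz (cl g) : ℝ) - 1) / (1 / 4 + (g : ℝ) ^ 2) := by
      refine Summable.of_nonneg_of_le hnn (fun g => ?_) (hs.mul_left 2)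
      rw [← mul_div_assoc]
      refine div_le_div_of_nonneg_right ?_ (den_pos _).le
      nlinarith [hm g]
    have h7 := (hasSum_zero_iff_of_nonneg hnn).mp (by rw [← h0]; exact hs'.hasSum)
    have h8 := congrFun h7 g
    simp only [Pi.zero_apply] at h8
    rw [div_eq_zero_iff] at h8
    have h9 := hm g
    rcases h8 with h8 | h8
    · have h10 : (mz (cl g) : ℝ) - 1 = 0 := by
        rcases mul_eq_zero.mp h8 with h | h
        · exfalso; linarith
        · exact h
      have h11 : (mz (cl g) : ℝ) = (1 : ℕ) := by push_cast; linarith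
      exact_mod_cast h11
    · exact absurd h8 (den_pos _).ne'

end Pool.Agent.Q280.OE
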